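import Pool.Agent.H27.ACProof

set_option autoImplicit false

namespace Pool.Agent.Results.MP_4b1745_al.OneVariable

open Pool.Agent.H27.AC

universe u v

/-- **Theorem.** An associative unital algebra `R ≠ 0` over a field `P` is algebraically closed
(every equation in finitely many of the countably many variables `x_0, x_1, …` over `R`, not in
`R`, has a solution in `R`) if and only if every equation over `R` in ONE variable has a
solution in `R` and `R ≠ P`. -/
theorem result (P : Type u) [Field P] (R : Type v) [Ring R] [Nontrivial R] [Algebra P R] :
    AlgebraicallyClosed P R ↔
      (OneVariableClosed P R ∧ ¬ Function.Surjective (algebraMap P R)) :=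
  main_thm P R

end Pool.Agent.Results.MP_4b1745_al.OneVariable
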